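import Mathlib

/-! # Derivations of free Lie algebras; the two-generator free Lie algebra -/

namespace Pool.Agent.X272.WZ

/-- dual numbers over a Lie algebra -/
def Dl (L : Type*) := L × L

section Dual
variable {K L : Type*} [CommRing K] [LieRing L] [LieAlgebra K L]

instance : AddCommGroup (Dl L) := inferInstanceAs (AddCommGroup (L × L))
instance : Module K (Dl L) := inferInstanceAs (Module K (L × L))

instance : Bracket (Dl L) (Dl L) :=
  ⟨fun u v => ((⁅u.1, v.1⁆, ⁅u.1, v.2⁆ + ⁅u.2, v.1⁆) : L × L)⟩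

theorem Dl.lie_def (u v : Dl L) : ⁅u, v⁆ = ((⁅u.1, v.1⁆, ⁅u.1, v.2⁆ + ⁅u.2, v.1⁆) : L × L) := rfl

@[simp] theorem Dl.add_fst (u v : Dl L) : (u + v).1 = u.1 + v.1 := rfl
@[simp] theorem Dl.add_snd (u v : Dl L) : (u + v).2 = u.2 + v.2 := rfl
@[simp] theorem Dl.smul_fst (c : K) (u : Dl L) : (c • u).1 = c • u.1 := rfl
@[simp] theorem Dl.smul_snd (c : K) (u : Dl L) : (c • u).2 = c • u.2 := rfl
@[simp] theorem Dl.lie_fst (u v : Dl L) : ⁅u, v⁆.1 = ⁅u.1, v.1⁆ := rfl
@[simp] theorem Dl.lie_snd (u v : Dl L) : ⁅u, v⁆.2 = ⁅u.1, v.2⁆ + ⁅u.2, v.1⁆ := rfl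
@[simp] theorem Dl.zero_fst : (0 : Dl L).1 = 0 := rfl
@[simp] theorem Dl.zero_snd : (0 : Dl L).2 = 0 := rfl

theorem Dl.ext' {u v : Dl L} (h1 : u.1 = v.1) (h2 : u.2 = v.2) : u = v := Prod.ext h1 h2

instance : LieRing (Dl L) where
  add_lie u v w := by
    apply Dl.ext' <;> simp only [Dl.lie_fst, Dl.lie_snd, Dl.add_fst, Dl.add_snd, add_lie, lie_add]
    abel
  lie_add u v w := by
    apply Dl.ext' <;> simp only [Dl.lie_fst, Dl.lie_snd, Dl.add_fst, Dl.add_snd, add_lie, lie_add]
    abel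
  lie_self u := by
    apply Dl.ext'
    · simp
    · simp only [Dl.lie_snd, Dl.zero_snd]
      rw [← lie_skew u.2 u.1]
      abel
  leibniz_lie u v w := by
    apply Dl.ext'
    · simp
    · simp only [Dl.lie_fst, Dl.lie_snd, Dl.add_fst, Dl.add_snd, add_lie, lie_add]
      rw [leibniz_lie u.1 v.1 w.2, leibniz_lie u.1 v.2 w.1, leibniz_lie u.2 v.1 w.1]
      abel

instance : LieAlgebra K (Dl L) where
  lie_smul t u v := by
    apply Dl.ext'
    · simp
    · simp

/-- first component -/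
def Dl.fstHom : Dl L →ₗ⁅K⁆ L where
  toFun u := u.1
  map_add' _ _ := rfl
  map_smul' _ _ := rfl
  map_lie' := rfl

end Dual

open FreeLieAlgebra

/-- A derivation of a free Lie algebra with prescribed values on the generators. -/
theorem exists_derivation (K X : Type*) [CommRing K] (g : X → FreeLieAlgebra K X) :
    ∃ D : LieDerivation K (FreeLieAlgebra K X) (FreeLieAlgebra K X),
      ∀ i, D (FreeLieAlgebra.of K i) = g i := by
  let Φ : FreeLieAlgebra K X →ₗ⁅K⁆ Dl (FreeLieAlgebra K X) :=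
    FreeLieAlgebra.lift K (fun i => ((FreeLieAlgebra.of K i, g i) : _ × _))
  have hfst : ∀ f, (Φ f).1 = f := by
    have h : (Dl.fstHom (K := K)).comp Φ = (LieHom.id : FreeLieAlgebra K X →ₗ⁅K⁆ _) := by
      apply FreeLieAlgebra.hom_ext
      intro i
      simp only [LieHom.comp_apply, Φ, FreeLieAlgebra.lift_of_apply]
      rfl
    intro f
    exact congrArg (fun F : FreeLieAlgebra K X →ₗ⁅K⁆ FreeLieAlgebra K X => F f) h
  refine ⟨{ toFun := fun f => (Φ f).2, map_add' := ?_, map_smul' := ?_, leibniz' := ?_ }, ?_⟩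
  · intro a b
    simp
  · intro t a
    simp
  · intro a b
    show (Φ ⁅a, b⁆).2 = ⁅a, (Φ b).2⁆ - ⁅b, (Φ a).2⁆
    rw [LieHom.map_lie, Dl.lie_snd, hfst, hfst, ← lie_skew b (Φ a).2]
    abel
  · intro i
    show (Φ (FreeLieAlgebra.of K i)).2 = g i
    simp only [Φ, FreeLieAlgebra.lift_of_apply]

/-- A Lie subalgebra containing the generators is everything. -/
theorem mem_of_gen {K X : Type*} [CommRing K] (S : LieSubalgebra K (FreeLieAlgebra K X))
    (h : ∀ i, FreeLieAlgebra.of K i ∈ S) (u : FreeLieAlgebra K X) : u ∈ S := by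
  let ι : FreeLieAlgebra K X →ₗ⁅K⁆ S := FreeLieAlgebra.lift K (fun i => ⟨_, h i⟩)
  have hι : S.incl.comp ι = (LieHom.id : FreeLieAlgebra K X →ₗ⁅K⁆ _) := by
    apply FreeLieAlgebra.hom_ext
    intro i
    simp only [LieHom.comp_apply, ι, FreeLieAlgebra.lift_of_apply]
    rfl
  have : S.incl (ι u) = u :=
    congrArg (fun F : FreeLieAlgebra K X →ₗ⁅K⁆ FreeLieAlgebra K X => F u) hι
  rw [← this]
  exact (ι u).2

/-- Two derivations agreeing on the generators agree. -/
theorem der_ext {K X : Type*} [CommRing K]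
    (D1 D2 : LieDerivation K (FreeLieAlgebra K X) (FreeLieAlgebra K X))
    (h : ∀ i, D1 (FreeLieAlgebra.of K i) = D2 (FreeLieAlgebra.of K i)) (u) : D1 u = D2 u := by
  let S : LieSubalgebra K (FreeLieAlgebra K X) :=
    { carrier := {u | D1 u = D2 u}
      add_mem' := by
        intro a b ha hb
        simp only [Set.mem_setOf_eq, map_add] at *
        rw [ha, hb]
      zero_mem' := by simp
      smul_mem' := by
        intro t a ha
        simp only [Set.mem_setOf_eq, map_smul] at *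
        rw [ha]
      lie_mem' := by
        intro a b ha hb
        simp only [Set.mem_setOf_eq, Submodule.carrier_eq_coe, SetLike.mem_coe,
          LieDerivation.apply_lie_eq_sub, AddSubsemigroup.mem_carrier, AddSubmonoid.mem_toSubsemigroup,
          Submodule.mem_toAddSubmonoid, Submodule.mem_mk, AddSubmonoid.mem_mk, AddSubsemigroup.mem_mk] at *
        rw [ha, hb] }
  exact mem_of_gen S h u

end Pool.Agent.X272.WZ
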