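import Pool.Agent.X272.WZ.Weights

/-! # Every constant of `δ` is `α x + [f, x] - [δ f, y]` with `δ² f = 0` -/

namespace Pool.Agent.X272.WZ

open FreeLieAlgebra

variable {K : Type*} [Field K] [CharZero K]


theorem end_pow (D : LieDerivation K (FreeLieAlgebra K (Fin 2)) (FreeLieAlgebra K (Fin 2))) (n : ℕ) (u : (FreeLieAlgebra K (Fin 2))) :
    ((D : Module.End K (FreeLieAlgebra K (Fin 2))) ^ n) u = D^[n] u := by
  rw [Module.End.pow_apply]
  rfl

theorem constants (δ : LieDerivation K (FreeLieAlgebra K (Fin 2)) (FreeLieAlgebra K (Fin 2))) (hx : δ (FreeLieAlgebra.of K 0) = 0)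
    (hy : δ (FreeLieAlgebra.of K 1) = FreeLieAlgebra.of K 0) (c : (FreeLieAlgebra K (Fin 2))) (hc : δ c = 0) :
    ∃ (α : K) (f : (FreeLieAlgebra K (Fin 2))), δ (δ f) = 0 ∧
      c = α • FreeLieAlgebra.of K 0 + ⁅f, FreeLieAlgebra.of K (0 : Fin 2)⁆ -
        ⁅δ f, FreeLieAlgebra.of K (1 : Fin 2)⁆ := by
  set x : (FreeLieAlgebra K (Fin 2)) := FreeLieAlgebra.of K 0 with hxd
  set y : (FreeLieAlgebra K (Fin 2)) := FreeLieAlgebra.of K 1 with hyd
  obtain ⟨φ, hφ⟩ := exists_derivation K (Fin 2) ![y, 0]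
  have hφx : φ x = y := hφ 0
  have hφy : φ y = 0 := hφ 1
  set H : LieDerivation K (FreeLieAlgebra K (Fin 2)) (FreeLieAlgebra K (Fin 2)) := ⁅δ, φ⁆ with hH
  have hHa : ∀ u, H u = δ (φ u) - φ (δ u) := fun u => LieDerivation.commutator_apply u
  have hHx : H x = x := by rw [hHa, hφx, hy, hx, map_zero, sub_zero]
  have hHy : H y = -y := by rw [hHa, hφy, hy, hφx, map_zero, zero_sub]
  -- commutation relations
  have hHE : ∀ u, H (δ u) = δ (H u) + (2 : K) • δ u := by
    intro u
    have h := der_ext ⁅H, δ⁆ ((2 : K) • δ) (fun i => by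
      fin_cases i
      · show ⁅H, δ⁆ x = (2 : K) • δ x
        rw [LieDerivation.commutator_apply, hHx, hx, map_zero, sub_zero, smul_zero]
      · show ⁅H, δ⁆ y = (2 : K) • δ y
        rw [LieDerivation.commutator_apply, hHy, hy, map_neg, hy, hHx]
        module) u
    rw [LieDerivation.commutator_apply] at h
    have h' : H (δ u) - δ (H u) = (2 : K) • δ u := h
    rw [← h']
    abel
  have hHF : ∀ u, H (φ u) = φ (H u) - (2 : K) • φ u := by
    intro u
    have h := der_ext ⁅H, φ⁆ ((-2 : K) • φ) (fun i => by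
      fin_cases i
      · show ⁅H, φ⁆ x = (-2 : K) • φ x
        rw [LieDerivation.commutator_apply, hHx, hφx, hHy]
        module
      · show ⁅H, φ⁆ y = (-2 : K) • φ y
        rw [LieDerivation.commutator_apply, hHy, hφy, map_neg, hφy, map_zero, smul_zero]
        simp) u
    rw [LieDerivation.commutator_apply] at h
    have h' : H (φ u) - φ (H u) = (-2 : K) • φ u := h
    have h'' : H (φ u) = φ (H u) + (-2 : K) • φ u := by rw [← h']; abel
    rw [h'', neg_smul]
    abel
  have hEF : ∀ u, δ (φ u) = φ (δ u) + H u := fun u => by rw [hHa]; abel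
  -- local nilpotency
  have nδ : ∀ u : (FreeLieAlgebra K (Fin 2)), ∃ N, ∀ n, N ≤ n → δ^[n] u = 0 := loc_nilp δ (fun i => by
    fin_cases i
    · exact ⟨1, hx⟩
    · exact ⟨2, by show δ (δ y) = 0; rw [hy, hx]⟩)
  have nφ : ∀ u : (FreeLieAlgebra K (Fin 2)), ∃ N, ∀ n, N ≤ n → φ^[n] u = 0 := loc_nilp φ (fun i => by
    fin_cases i
    · exact ⟨2, by show φ (φ x) = 0; rw [hφx, hφy]⟩
    · exact ⟨1, hφy⟩)
  obtain ⟨p, p1, p2, p3, p4, p5⟩ := exists_proj H hHx hHy
  -- projections and the operators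
  have pδ : ∀ n u, δ (p n u) = p (n + 2) (δ u) := by
    intro n
    refine p5 _ ?_ ?_ ?_
    · simp
    · intro a b ha hb
      rw [map_add, map_add, map_add, map_add, ha, hb]
    · intro m u hu
      have hw : H (δ u) = ((m + 2 : ℤ) : K) • δ u := by
        rw [hHE, hu, map_smul]; push_cast; module
      by_cases hmn : m = n
      · subst hmn
        rw [p1 m u hu, p1 (m + 2) (δ u) hw]
      · rw [p2 n m u hu hmn, map_zero, p2 (n + 2) (m + 2) (δ u) hw (by omega)]
  have px : ∀ (n : ℤ) (f : (FreeLieAlgebra K (Fin 2))), p n ⁅f, x⁆ = ⁅p (n - 1) f, x⁆ := by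
    intro n
    refine p5 _ ?_ ?_ ?_
    · simp
    · intro a b ha hb
      rw [add_lie, map_add, map_add, add_lie, ha, hb]
    · intro m u hu
      have hw : H ⁅u, x⁆ = ((m + 1 : ℤ) : K) • ⁅u, x⁆ := by
        rw [LieDerivation.apply_lie_eq_add, hu, hHx, smul_lie]; push_cast; module
      by_cases hmn : m + 1 = n
      · rw [p1 n _ (hmn ▸ hw), p1 (n - 1) u (by rw [hu, ← hmn]; simp)]
      · rw [p2 n (m + 1) _ hw hmn, p2 (n - 1) m u hu (by omega), zero_lie]
  have py : ∀ (n : ℤ) (f : (FreeLieAlgebra K (Fin 2))), p n ⁅f, y⁆ = ⁅p (n + 1) f, y⁆ := by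
    intro n
    refine p5 _ ?_ ?_ ?_
    · simp
    · intro a b ha hb
      rw [add_lie, map_add, map_add, add_lie, ha, hb]
    · intro m u hu
      have hw : H ⁅u, y⁆ = ((m - 1 : ℤ) : K) • ⁅u, y⁆ := by
        rw [LieDerivation.apply_lie_eq_add, hu, hHy, smul_lie, lie_neg]; push_cast; module
      by_cases hmn : m - 1 = n
      · rw [p1 n _ (hmn ▸ hw), p1 (n + 1) u (by rw [hu, ← hmn]; simp)]
      · rw [p2 n (m - 1) _ hw hmn, p2 (n + 1) m u hu (by omega), zero_lie]
  -- the property to prove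
  let Good : (FreeLieAlgebra K (Fin 2)) → Prop := fun c => ∃ (α : K) (f : (FreeLieAlgebra K (Fin 2))), δ (δ f) = 0 ∧ c = α • x + ⁅f, x⁆ - ⁅δ f, y⁆
  have good0 : Good 0 := ⟨0, 0, by simp, by simp⟩
  have goodadd : ∀ a b, Good a → Good b → Good (a + b) := by
    rintro _ _ ⟨α, f, hf, rfl⟩ ⟨β, g, hg, rfl⟩
    refine ⟨α + β, f + g, by rw [map_add, map_add, hf, hg, add_zero], ?_⟩
    rw [add_smul, add_lie, map_add, add_lie]
    abel
  have goodsum : ∀ (s : Finset ℤ) (f : ℤ → (FreeLieAlgebra K (Fin 2))), (∀ n ∈ s, Good (f n)) → Good (∑ n ∈ s, f n) := by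
    intro s f hf
    exact Finset.sum_induction f Good goodadd good0 hf
  -- main point: a constant of weight `lam ≥ 0`
  have key : ∀ (lam : ℕ) (c : (FreeLieAlgebra K (Fin 2))), H c = (lam : K) • c → δ c = 0 → Good c := by
    intro lam c hw hc
    obtain ⟨α, β, f, g, hu⟩ := repr K c
    rw [← hxd, ← hyd] at hu
    have hcp : c = p lam c := (p1 lam c (by simpa using hw)).symm
    have hpy : p lam y = 0 := p2 lam (-1) y (by rw [hHy]; simp) (by omega)
    obtain ⟨α', hα'⟩ : ∃ α' : K, p lam x = α' • x := by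
      by_cases h : (1 : ℤ) = lam
      · exact ⟨1, by rw [p1 lam x (by rw [hHx, ← h]; simp), one_smul]⟩
      · exact ⟨0, by rw [p2 lam 1 x (by rw [hHx]; simp) h, zero_smul]⟩
    set a := p (lam - 1) f with ha
    set b := p (lam + 1) g with hb
    have hc2 : c = (α * α') • x + (⁅a, x⁆ + ⁅b, y⁆) := by
      rw [hcp, hu, map_add, map_add, map_add, map_smul, map_smul, hpy, hα', px, py]
      module
    have hca : H a = ((lam : K) - 1) • a := by
      have := p3 ((lam : ℤ) - 1) f
      simpa [ha] using this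
    have hcb : H b = ((lam : K) + 1) • b := by
      have := p3 ((lam : ℤ) + 1) g
      simpa [hb] using this
    -- the module `L ⊗ V`
    let δl : (FreeLieAlgebra K (Fin 2)) →ₗ[K] (FreeLieAlgebra K (Fin 2)) := (δ : Module.End K (FreeLieAlgebra K (Fin 2)))
    let φl : (FreeLieAlgebra K (Fin 2)) →ₗ[K] (FreeLieAlgebra K (Fin 2)) := (φ : Module.End K (FreeLieAlgebra K (Fin 2)))
    let Hl : (FreeLieAlgebra K (Fin 2)) →ₗ[K] (FreeLieAlgebra K (Fin 2)) := (H : Module.End K (FreeLieAlgebra K (Fin 2)))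
    have eδ : ∀ u, δl u = δ u := fun _ => rfl
    have eφ : ∀ u, φl u = φ u := fun _ => rfl
    have eH : ∀ u, Hl u = H u := fun _ => rfl
    let f1 : (FreeLieAlgebra K (Fin 2)) × (FreeLieAlgebra K (Fin 2)) →ₗ[K] (FreeLieAlgebra K (Fin 2)) := LinearMap.fst K (FreeLieAlgebra K (Fin 2)) (FreeLieAlgebra K (Fin 2))
    let f2 : (FreeLieAlgebra K (Fin 2)) × (FreeLieAlgebra K (Fin 2)) →ₗ[K] (FreeLieAlgebra K (Fin 2)) := LinearMap.snd K (FreeLieAlgebra K (Fin 2)) (FreeLieAlgebra K (Fin 2))
    let E : (FreeLieAlgebra K (Fin 2)) × (FreeLieAlgebra K (Fin 2)) →ₗ[K] (FreeLieAlgebra K (Fin 2)) × (FreeLieAlgebra K (Fin 2)) := (δl ∘ₗ f1 + f2).prod (δl ∘ₗ f2)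
    let F : (FreeLieAlgebra K (Fin 2)) × (FreeLieAlgebra K (Fin 2)) →ₗ[K] (FreeLieAlgebra K (Fin 2)) × (FreeLieAlgebra K (Fin 2)) := (φl ∘ₗ f1).prod (f1 + φl ∘ₗ f2)
    let HM : (FreeLieAlgebra K (Fin 2)) × (FreeLieAlgebra K (Fin 2)) →ₗ[K] (FreeLieAlgebra K (Fin 2)) × (FreeLieAlgebra K (Fin 2)) := (Hl ∘ₗ f1 + f1).prod (Hl ∘ₗ f2 - f2)
    have E1 : ∀ m, E m = (δ m.1 + m.2, δ m.2) := fun _ => rfl
    have F1 : ∀ m, F m = (φ m.1, m.1 + φ m.2) := fun _ => rfl
    have H1 : ∀ m, HM m = (H m.1 + m.1, H m.2 - m.2) := fun _ => rfl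
    have cEF : ∀ m, E (F m) = F (E m) + HM m := by
      intro m
      rw [E1, F1, F1, E1, H1]
      ext1
      · simp only [Prod.fst_add, map_add, hEF]
        abel
      · simp only [Prod.snd_add, map_add, hEF]
        abel
    have cHF : ∀ m, HM (F m) = F (HM m) - (2 : K) • F m := by
      intro m
      rw [H1, F1, F1, H1]
      ext1
      · simp only [Prod.fst_sub, Prod.smul_fst, map_add, hHF]
        module
      · simp only [Prod.snd_sub, Prod.smul_snd, map_add, map_sub, hHF]
        module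
    have cHE : ∀ m, HM (E m) = E (HM m) + (2 : K) • E m := by
      intro m
      rw [H1, E1, E1, H1]
      ext1
      · simp only [Prod.fst_add, Prod.smul_fst, map_add, hHE]
        module
      · simp only [Prod.snd_add, Prod.smul_snd, map_sub, hHE]
        module
    have wm : HM (a, b) = (lam : K) • (a, b) := by
      rw [H1]
      ext1
      · simp only [Prod.smul_fst, hca]
        module
      · simp only [Prod.smul_snd, hcb]
        module
    -- nilpotency of `E`
    have Epow : ∀ N, (E ^ (N + 1)) (a, b) =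
        (δ^[N + 1] a + (((N : K) + 1)) • δ^[N] b, δ^[N + 1] b) := by
      intro N
      induction N with
      | zero => simp [E1]
      | succ N ih =>
        rw [pow_succ', Module.End.mul_apply, ih, E1]
        ext1
        · simp only [map_add, map_smul]
          rw [← Function.iterate_succ_apply' δ (N + 1) a, ← Function.iterate_succ_apply' δ N b]
          push_cast
          module
        · simp only
          rw [← Function.iterate_succ_apply' δ (N + 1) b]
    obtain ⟨N1, hN1⟩ := nδ a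
    obtain ⟨N2, hN2⟩ := nδ b
    set N := N1 + N2 with hN
    have EN : (E ^ (N + 1)) (a, b) = 0 := by
      rw [Epow, hN1 _ (by omega), hN2 _ (by omega), hN2 _ (by omega)]
      simp
    have hE0 := E_pr E F HM cEF cHF cHE lam (a, b) wm N
    rw [EN, map_zero, smul_zero] at hE0
    -- the map `π`
    let π : (FreeLieAlgebra K (Fin 2)) × (FreeLieAlgebra K (Fin 2)) →ₗ[K] (FreeLieAlgebra K (Fin 2)) :=
      { toFun := fun m => ⁅m.1, x⁆ + ⁅m.2, y⁆
        map_add' := by
          intro m n
          simp only [Prod.fst_add, Prod.snd_add, add_lie]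
          abel
        map_smul' := by
          intro t m
          simp only [Prod.smul_fst, Prod.smul_snd, smul_lie, RingHom.id_apply, smul_add] }
    have π1 : ∀ m, π m = ⁅m.1, x⁆ + ⁅m.2, y⁆ := fun _ => rfl
    have πE : ∀ m, π (E m) = δ (π m) := by
      intro m
      rw [π1, π1, E1, map_add, LieDerivation.apply_lie_eq_add, LieDerivation.apply_lie_eq_add,
        hx, hy, lie_zero]
      simp only [add_lie]
      abel
    have πF : ∀ m, π (F m) = φ (π m) := by
      intro m
      rw [π1, π1, F1, map_add, LieDerivation.apply_lie_eq_add, LieDerivation.apply_lie_eq_add,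
        hφx, hφy, lie_zero]
      simp only [add_lie]
      abel
    have πEp : ∀ k m, π ((E ^ k) m) = δ^[k] (π m) := by
      intro k
      induction k with
      | zero => intro m; rfl
      | succ k ih =>
        intro m
        rw [pow_succ', Module.End.mul_apply, πE, ih, Function.iterate_succ_apply']
    have πFp : ∀ k m, π ((F ^ k) m) = φ^[k] (π m) := by
      intro k
      induction k with
      | zero => intro m; rfl
      | succ k ih =>
        intro m
        rw [pow_succ', Module.End.mul_apply, πF, ih, Function.iterate_succ_apply']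
    have hπ : δ (π (a, b)) = 0 := by
      have e : π (a, b) = c - (α * α') • x := by
        rw [π1, hc2]
        simp only
        abel
      rw [e, map_sub, map_smul, hc, hx, smul_zero, sub_zero]
    have hz : ∀ (D : LieDerivation K (FreeLieAlgebra K (Fin 2)) (FreeLieAlgebra K (Fin 2))) n, D^[n] (0 : (FreeLieAlgebra K (Fin 2))) = 0 := by
      intro D n
      induction n with
      | zero => rfl
      | succ n ih => rw [Function.iterate_succ_apply', ih, map_zero]
    have hpr : π (pr E F lam (a, b) N) = π (a, b) := by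
      rw [pr, map_sum, Finset.sum_eq_single 0]
      · simp [co]
      · intro k _ hk
        obtain ⟨j, rfl⟩ := Nat.exists_eq_succ_of_ne_zero hk
        rw [map_smul, πFp, πEp]
        show co K lam (j + 1) • φ^[j + 1] (δ^[j + 1] (π (a, b))) = 0
        rw [Function.iterate_succ_apply δ j, hπ, hz, hz, smul_zero]
      · intro h
        exact absurd (Finset.mem_range.mpr (Nat.succ_pos N)) h
    set m := pr E F lam (a, b) N with hm
    rw [E1] at hE0
    have e1 : δ m.1 + m.2 = 0 := congrArg Prod.fst hE0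
    have e2 : δ m.2 = 0 := congrArg Prod.snd hE0
    have e3 : m.2 = - δ m.1 := by
      rw [eq_neg_iff_add_eq_zero, add_comm]
      exact e1
    refine ⟨α * α', m.1, ?_, ?_⟩
    · have : δ (δ m.1) = - δ m.2 := by rw [e3, map_neg, neg_neg]
      rw [this, e2, neg_zero]
    · rw [hc2]
      have : ⁅a, x⁆ + ⁅b, y⁆ = ⁅m.1, x⁆ + ⁅m.2, y⁆ := by
        rw [← π1 m, hpr, π1]
      rw [this, e3, neg_lie]
      abel
  -- all weights
  have keyZ : ∀ (n : ℤ) (c : (FreeLieAlgebra K (Fin 2))), H c = (n : K) • c → δ c = 0 → Good c := by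
    intro n c hw hc
    rcases lt_or_ge n 0 with hn | hn
    · obtain ⟨mu, rfl⟩ : ∃ mu : ℕ, n = -((mu : ℤ) + 1) :=
        ⟨(-n - 1).toNat, by omega⟩
      obtain ⟨N, hN⟩ := nφ c
      have h0 : c = 0 := by
        refine neg_weight (δ : Module.End K (FreeLieAlgebra K (Fin 2))) (φ : Module.End K (FreeLieAlgebra K (Fin 2))) (H : Module.End K (FreeLieAlgebra K (Fin 2)))
          hEF hHF mu c ?_ hc N ?_
        · have : H c = (((-((mu : ℤ) + 1) : ℤ)) : K) • c := hw
          push_cast at this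
          exact this
        · rw [end_pow]
          exact hN N le_rfl
      rw [h0]
      exact good0
    · obtain ⟨lam, rfl⟩ := Int.eq_ofNat_of_zero_le hn
      exact key lam c (by simpa using hw) hc
  obtain ⟨s, hs⟩ := p4 c
  have : Good c := by
    rw [hs]
    apply goodsum
    intro n _
    exact keyZ n _ (p3 n c) (by rw [pδ, hc, map_zero])
  exact this

end Pool.Agent.X272.WZ
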