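import Mathlib

/-! # The extremal projector of `sl₂` on a vector of weight `lam ≥ 0`. -/

namespace Pool.Agent.X272.WZ

variable {K M : Type*} [Field K] [CharZero K] [AddCommGroup M] [Module K M]

/-- `E F^{k+1} v = F^{k+1} E v + (k+1)(μ-k) F^k v` for `H v = μ v`. -/
theorem comm_pow (E F H : M →ₗ[K] M) (hEF : ∀ m, E (F m) = F (E m) + H m)
    (hHF : ∀ m, H (F m) = F (H m) - (2 : K) • F m) (mu : K) (v : M) (hv : H v = mu • v) (k : ℕ) :
    H ((F ^ k) v) = (mu - 2 * (k : K)) • (F ^ k) v ∧
    E ((F ^ (k + 1)) v) = (F ^ (k + 1)) (E v) + (((k : K) + 1) * (mu - k)) • (F ^ k) v := by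
  have hw : ∀ k : ℕ, H ((F ^ k) v) = (mu - 2 * (k : K)) • (F ^ k) v := by
    intro k
    induction k with
    | zero => simp [hv]
    | succ k ih =>
      rw [pow_succ', Module.End.mul_apply, hHF, ih, map_smul]
      push_cast
      module
  refine ⟨hw k, ?_⟩
  induction k with
  | zero => simp [hEF, hv]
  | succ k ih =>
    rw [pow_succ' F (k + 1), Module.End.mul_apply, hEF, ih, map_add, map_smul, hw (k + 1),
      Module.End.mul_apply, ← Module.End.mul_apply F (F ^ k) v, ← pow_succ']
    push_cast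
    module

/-- the coefficients of the projector -/
noncomputable def co (K : Type*) [Field K] (lam : ℕ) : ℕ → K
  | 0 => 1
  | k + 1 => - co K lam k / (((k : K) + 1) * (lam + k + 2))

/-- the projector, truncated -/
noncomputable def pr (E F : M →ₗ[K] M) (lam : ℕ) (m : M) (N : ℕ) : M :=
  ∑ k ∈ Finset.range (N + 1), co K lam k • (F ^ k) ((E ^ k) m)

theorem weight_pow (E H : M →ₗ[K] M)
    (hHE : ∀ m, H (E m) = E (H m) + (2 : K) • E m) (mu : K) (v : M) (hv : H v = mu • v) (k : ℕ) :
    H ((E ^ k) v) = (mu + 2 * (k : K)) • (E ^ k) v := by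
  induction k with
  | zero => simp [hv]
  | succ k ih =>
    rw [pow_succ', Module.End.mul_apply, hHE, ih, map_smul]
    push_cast
    module

theorem E_pr (E F H : M →ₗ[K] M) (hEF : ∀ m, E (F m) = F (E m) + H m)
    (hHF : ∀ m, H (F m) = F (H m) - (2 : K) • F m)
    (hHE : ∀ m, H (E m) = E (H m) + (2 : K) • E m) (lam : ℕ) (m : M)
    (hm : H m = (lam : K) • m) (N : ℕ) :
    E (pr E F lam m N) = co K lam N • (F ^ N) ((E ^ (N + 1)) m) := by
  induction N with
  | zero => simp [pr, co]
  | succ N ih =>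
    have h1 := (comm_pow E F H hEF hHF _ _ (weight_pow E H hHE _ m hm (N + 1)) N).2
    have h2 : pr E F lam m (N + 1) =
        pr E F lam m N + co K lam (N + 1) • (F ^ (N + 1)) ((E ^ (N + 1)) m) := by
      rw [pr, Finset.sum_range_succ, ← pr]
    rw [h2, map_add, ih, map_smul, h1]
    have h3 : E ((E ^ (N + 1)) m) = (E ^ (N + 1 + 1)) m := by
      rw [pow_succ' E (N + 1), Module.End.mul_apply]
    rw [h3]
    have h4 : co K lam (N + 1) * (((N : K) + 1) * ((lam : K) + 2 * ((N + 1 : ℕ) : K) - N)) =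
        - co K lam N := by
      have ha : ((N : K) + 1) ≠ 0 := by exact_mod_cast Nat.succ_ne_zero N
      have hb : ((lam : K) + N + 2) ≠ 0 := by
        have : ((lam + N + 2 : ℕ) : K) ≠ 0 := by exact_mod_cast Nat.succ_ne_zero (lam + N + 1)
        push_cast at this
        exact this
      rw [co]
      push_cast
      field_simp
      ring
    rw [smul_add, smul_smul, h4]
    module

/-- A vector of negative weight killed by `E` and by a power of `F` is zero. -/
theorem neg_weight (E F H : M →ₗ[K] M) (hEF : ∀ m, E (F m) = F (E m) + H m)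
    (hHF : ∀ m, H (F m) = F (H m) - (2 : K) • F m) (mu : ℕ) (v : M)
    (hv : H v = (-((mu : K) + 1)) • v) (hE : E v = 0) (N : ℕ) (hN : (F ^ N) v = 0) : v = 0 := by
  induction N with
  | zero => simpa using hN
  | succ N ih =>
    apply ih
    have h1 := (comm_pow E F H hEF hHF _ _ hv N).2
    rw [hN, hE, map_zero, map_zero, zero_add] at h1
    have h2 : ((N : K) + 1) * (-((mu : K) + 1) - N) ≠ 0 := by
      have ha : ((N : K) + 1) ≠ 0 := by exact_mod_cast Nat.succ_ne_zero N
      have hb : ((mu : K) + N + 1) ≠ 0 := by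
        have : ((mu + N + 1 : ℕ) : K) ≠ 0 := by exact_mod_cast Nat.succ_ne_zero (mu + N)
        push_cast at this
        exact this
      have : (-((mu : K) + 1) - N) = -((mu : K) + N + 1) := by ring
      rw [this]
      exact mul_ne_zero ha (neg_ne_zero.mpr hb)
    exact (smul_eq_zero.mp h1.symm).resolve_left h2

end Pool.Agent.X272.WZ
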