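import Pool.Agent.X272.WZ.Sl2
import Pool.Agent.X272.WZ.Free

/-! # Weights, local nilpotency and the surjection `L ⊗ V → [L, L]` -/

namespace Pool.Agent.X272.WZ

open FreeLieAlgebra

section General
variable {K X : Type*} [Field K]


/-- a derivation nilpotent on the generators is locally nilpotent -/
theorem loc_nilp (D : LieDerivation K (FreeLieAlgebra K X) (FreeLieAlgebra K X))
    (h : ∀ i, ∃ N, D^[N] (FreeLieAlgebra.of K i) = 0) (u : (FreeLieAlgebra K X)) : ∃ N, ∀ n, N ≤ n → D^[n] u = 0 := by
  have hz : ∀ n, D^[n] (0 : (FreeLieAlgebra K X)) = 0 := by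
    intro n
    induction n with
    | zero => rfl
    | succ n ih => rw [Function.iterate_succ_apply', ih, map_zero]
  have hle : ∀ (u : (FreeLieAlgebra K X)) N, D^[N] u = 0 → ∀ n, N ≤ n → D^[n] u = 0 := by
    intro u N hN n hn
    obtain ⟨k, rfl⟩ := Nat.exists_eq_add_of_le' hn
    rw [Function.iterate_add_apply, hN, hz]
  have hadd : ∀ n (a b : (FreeLieAlgebra K X)), D^[n] (a + b) = D^[n] a + D^[n] b := by
    intro n
    induction n with
    | zero => intro a b; rfl
    | succ n ih => intro a b; rw [Function.iterate_succ_apply', ih, map_add,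
        ← Function.iterate_succ_apply' D, ← Function.iterate_succ_apply' D]
  have hsmul : ∀ n (t : K) (a : (FreeLieAlgebra K X)), D^[n] (t • a) = t • D^[n] a := by
    intro n
    induction n with
    | zero => intro t a; rfl
    | succ n ih => intro t a; rw [Function.iterate_succ_apply', ih, map_smul,
        ← Function.iterate_succ_apply' D]
  let S : LieSubalgebra K (FreeLieAlgebra K X) :=
    { carrier := {u | ∃ N, ∀ n, N ≤ n → D^[n] u = 0}
      add_mem' := by
        rintro a b ⟨N, hN⟩ ⟨M, hM⟩
        refine ⟨N + M, fun n hn => ?_⟩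
        rw [hadd, hN n (by omega), hM n (by omega), add_zero]
      zero_mem' := ⟨0, fun n _ => hz n⟩
      smul_mem' := by
        rintro t a ⟨N, hN⟩
        exact ⟨N, fun n hn => by rw [hsmul, hN n hn, smul_zero]⟩
      lie_mem' := by
        rintro a b ⟨N, hN⟩ ⟨M, hM⟩
        refine ⟨N + M, fun n hn => ?_⟩
        rw [LieDerivation.iterate_apply_lie]
        apply Finset.sum_eq_zero
        rintro ⟨i, j⟩ hij
        have hij := Finset.HasAntidiagonal.mem_antidiagonal.mp hij
        simp only at hij
        rcases Nat.lt_or_ge i N with hi | hi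
        · rw [hM j (by omega), lie_zero, smul_zero]
        · rw [hN i hi, zero_lie, smul_zero] }
  refine mem_of_gen S (fun i => ?_) u
  obtain ⟨N, hN⟩ := h i
  exact ⟨N, hle _ N hN⟩

end General

section Two
variable (K : Type*) [Field K]


/-- every element is `α x + β y + [f, x] + [g, y]` -/
theorem repr (u : (FreeLieAlgebra K (Fin 2))) : ∃ (α β : K) (f g : (FreeLieAlgebra K (Fin 2))),
    u = α • FreeLieAlgebra.of K 0 + β • FreeLieAlgebra.of K 1 +
      ⁅f, FreeLieAlgebra.of K (0 : Fin 2)⁆ + ⁅g, FreeLieAlgebra.of K (1 : Fin 2)⁆ := by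
  set x : (FreeLieAlgebra K (Fin 2)) := FreeLieAlgebra.of K 0 with hx
  set y : (FreeLieAlgebra K (Fin 2)) := FreeLieAlgebra.of K 1 with hy
  -- every bracket lies in the image
  have h1 : ∀ v u : (FreeLieAlgebra K (Fin 2)), ∃ f g : (FreeLieAlgebra K (Fin 2)), ⁅u, v⁆ = ⁅f, x⁆ + ⁅g, y⁆ := by
    intro v
    let S : LieSubalgebra K (FreeLieAlgebra K (Fin 2)) :=
      { carrier := {v | ∀ u : (FreeLieAlgebra K (Fin 2)), ∃ f g : (FreeLieAlgebra K (Fin 2)), ⁅u, v⁆ = ⁅f, x⁆ + ⁅g, y⁆}
        add_mem' := by
          intro a b ha hb u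
          obtain ⟨f, g, h⟩ := ha u
          obtain ⟨f', g', h'⟩ := hb u
          refine ⟨f + f', g + g', ?_⟩
          rw [lie_add, h, h', add_lie, add_lie]
          abel
        zero_mem' := fun u => ⟨0, 0, by simp⟩
        smul_mem' := by
          intro t a ha u
          obtain ⟨f, g, h⟩ := ha u
          refine ⟨t • f, t • g, ?_⟩
          rw [lie_smul, h, smul_add, smul_lie, smul_lie]
        lie_mem' := by
          intro a b ha hb u
          obtain ⟨f, g, h⟩ := hb ⁅u, a⁆
          obtain ⟨f', g', h'⟩ := ha ⁅u, b⁆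
          refine ⟨f - f', g - g', ?_⟩
          have e : ⁅u, ⁅a, b⁆⁆ = ⁅⁅u, a⁆, b⁆ - ⁅⁅u, b⁆, a⁆ := by
            rw [leibniz_lie u a b, ← lie_skew a ⁅u, b⁆]
            abel
          rw [e, h, h', sub_lie, sub_lie]
          abel }
    refine mem_of_gen S (fun i => ?_) v
    intro u
    fin_cases i
    · exact ⟨u, 0, by simp [hx]⟩
    · exact ⟨0, u, by simp [hy]⟩
  let S : LieSubalgebra K (FreeLieAlgebra K (Fin 2)) :=
    { carrier := {u | ∃ (α β : K) (f g : (FreeLieAlgebra K (Fin 2))), u = α • x + β • y + ⁅f, x⁆ + ⁅g, y⁆}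
      add_mem' := by
        rintro _ _ ⟨α, β, f, g, rfl⟩ ⟨α', β', f', g', rfl⟩
        refine ⟨α + α', β + β', f + f', g + g', ?_⟩
        rw [add_lie, add_lie, add_smul, add_smul]
        abel
      zero_mem' := ⟨0, 0, 0, 0, by simp⟩
      smul_mem' := by
        rintro t _ ⟨α, β, f, g, rfl⟩
        refine ⟨t * α, t * β, t • f, t • g, ?_⟩
        simp only [smul_add, smul_lie, mul_smul]
      lie_mem' := by
        intro a b _ _
        obtain ⟨f, g, h⟩ := h1 b a
        exact ⟨0, 0, f, g, by rw [h]; simp⟩ }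
  refine mem_of_gen S (fun i => ?_) u
  fin_cases i
  · exact ⟨1, 0, 0, 0, by simp [hx]⟩
  · exact ⟨0, 1, 0, 0, by simp [hy]⟩

variable [CharZero K] {K}

/-- projections on the weight spaces of a derivation `H` with `H x = x`, `H y = -y` -/
theorem exists_proj (H : LieDerivation K (FreeLieAlgebra K (Fin 2)) (FreeLieAlgebra K (Fin 2)))
    (hx : H (FreeLieAlgebra.of K 0) = FreeLieAlgebra.of K 0)
    (hy : H (FreeLieAlgebra.of K 1) = - FreeLieAlgebra.of K 1) :
    ∃ p : ℤ → ((FreeLieAlgebra K (Fin 2)) →ₗ[K] (FreeLieAlgebra K (Fin 2))),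
      (∀ (n : ℤ) u, H u = (n : K) • u → p n u = u) ∧
      (∀ (n m : ℤ) u, H u = (m : K) • u → m ≠ n → p n u = 0) ∧
      (∀ (n : ℤ) u, H (p n u) = (n : K) • p n u) ∧
      (∀ u, ∃ s : Finset ℤ, u = ∑ n ∈ s, p n u) ∧
      (∀ P : (FreeLieAlgebra K (Fin 2)) → Prop, P 0 → (∀ a b, P a → P b → P (a + b)) →
        (∀ (n : ℤ) u, H u = (n : K) • u → P u) → ∀ u, P u) := by
  classical
  let V : ℤ → Submodule K (FreeLieAlgebra K (Fin 2)) := fun n => Module.End.eigenspace (H : Module.End K (FreeLieAlgebra K (Fin 2))) (n : K)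
  have hV : ∀ (n : ℤ) u, u ∈ V n ↔ H u = (n : K) • u := fun n u => Module.End.mem_eigenspace_iff
  have hind : iSupIndep V :=
    (Module.End.eigenspaces_iSupIndep (H : Module.End K (FreeLieAlgebra K (Fin 2)))).comp
      (f := fun n : ℤ => (n : K)) Int.cast_injective
  have htop : ⨆ n, V n = ⊤ := by
    rw [eq_top_iff]
    intro u _
    let S : LieSubalgebra K (FreeLieAlgebra K (Fin 2)) :=
      { (⨆ n, V n) with
        lie_mem' := by
          intro a b ha hb
          change a ∈ ⨆ n, V n at ha
          change b ∈ ⨆ n, V n at hb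
          change ⁅a, b⁆ ∈ ⨆ n, V n
          refine Submodule.iSup_induction V (motive := fun a => ⁅a, b⁆ ∈ ⨆ n, V n) ha ?_ ?_ ?_
          · intro n a ha
            refine Submodule.iSup_induction V (motive := fun b => ⁅a, b⁆ ∈ ⨆ n, V n) hb ?_ ?_ ?_
            · intro m b hb
              refine Submodule.mem_iSup_of_mem (n + m) ?_
              rw [hV] at ha hb ⊢
              rw [LieDerivation.apply_lie_eq_add, ha, hb, lie_smul, smul_lie]
              push_cast
              module
            · simp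
            · intro c d hc hd
              rw [lie_add]
              exact add_mem hc hd
          · simp
          · intro c d hc hd
            rw [add_lie]
            exact add_mem hc hd }
    have : u ∈ S := by
      refine mem_of_gen S (fun i => ?_) u
      fin_cases i
      · refine Submodule.mem_iSup_of_mem (1 : ℤ) ?_
        rw [hV]
        simpa using hx
      · refine Submodule.mem_iSup_of_mem (-1 : ℤ) ?_
        rw [hV]
        simpa using hy
    exact this
  have hint : DirectSum.IsInternal V :=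
    DirectSum.isInternal_submodule_of_iSupIndep_of_iSup_eq_top hind htop
  letI := hint.chooseDecomposition
  refine ⟨fun n => (V n).subtype ∘ₗ (DirectSum.component K ℤ (fun i => V i) n) ∘ₗ
    (DirectSum.decomposeLinearEquiv V).toLinearMap, ?_, ?_, ?_, ?_, ?_⟩
  · intro n u hu
    exact DirectSum.decompose_of_mem_same V ((hV n u).mpr hu)
  · intro n m u hu hmn
    exact DirectSum.decompose_of_mem_ne V ((hV m u).mpr hu) hmn
  · intro n u
    exact (hV n _).mp (SetLike.coe_mem _)
  · intro u
    exact ⟨_, (DirectSum.sum_support_decompose V u).symm⟩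
  · intro P h0 hadd hP u
    have hu : u ∈ ⨆ n, V n := by rw [htop]; trivial
    exact Submodule.iSup_induction V (motive := P) hu (fun n u hu => hP n u ((hV n u).mp hu)) h0
      (fun a b => hadd a b)

end Two

end Pool.Agent.X272.WZ
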